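import Mathlib
import Pool.Agent.X185.OS.Final

/-!
# MP_bcad5b_nt: the number of element orders of the symmetric group

For every positive integer `n` the number of distinct element orders of the symmetric group on
`n` letters is at most `exp (sqrt n)`.
-/

set_option autoImplicit false

namespace Pool.Agent.Results.MP_bcad5b_nt.OrderCount

theorem result (n : ℕ) (_hn : 0 < n) :
    ((Set.range (fun σ : Equiv.Perm (Fin n) => orderOf σ)).ncard : ℝ) ≤
      Real.exp (Real.sqrt n) := by
  have h1 : Set.range (fun σ : Equiv.Perm (Fin n) => orderOf σ) =
      ((Finset.univ : Finset (Equiv.Perm (Fin n))).image orderOf : Set ℕ) := by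
    rw [Finset.coe_image, Finset.coe_univ, Set.image_univ]
  rw [h1, Set.ncard_coe_finset]
  exact Pool.Agent.X185.OS.card_le n

end Pool.Agent.Results.MP_bcad5b_nt.OrderCount
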